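import Pool.Graph.R_seed8.Helper746.QcMain
import Pool.Graph.R_seed8.Helper514.IoD

/-!
# An explicit dimension-free bound for the distortion coefficient of quasiconformal maps

For every `n ≥ 2`, every `k ≥ 1`, every injective `k`-quasiconformal map `f` of `ℝⁿ` into itself and
every `r > 0` the ratio of the greatest and the least distance of `f (x)`, `|x| = r`, from `f (0)` is
at most `exp (exp (300 k²))`. So `E (k) = sup_n ε (n, k)` is at most `exp (exp (300 k²))`, for all
`k ≥ 1`.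

This contains the answer to the question (`E (k)` is finite for every `k ≥ 1`), which is in the
library (module `Pool.Graph.R_seed8.Results.MP_591455_an.DimensionFree`, without a bound for `E (k)`).
The proof follows the library modules `Helper746`: the ring inequality and the chain lemma are used as
they are, the last step is carried out with explicit constants.
-/

set_option autoImplicit false

namespace Pool.Agent.Results.MP_591455_an.ExplicitBound

open Set Metric MeasureTheory Filter Topology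
open scoped ENNReal NNReal

/-- Euclidean `n`-space. -/
abbrev Eucl (n : ℕ) := EuclideanSpace ℝ (Fin n)

/-- `M_f(x, r)`: the supremum of `|f ξ - f x|` over the sphere `|ξ - x| = r`. -/
noncomputable def maxDist {n : ℕ} (f : Eucl n → Eucl n) (x : Eucl n) (r : ℝ) : ℝ≥0∞ :=
  ⨆ ξ ∈ sphere x r, edist (f ξ) (f x)

/-- `m_f(x, r)`: the infimum of `|f ξ - f x|` over the sphere `|ξ - x| = r`. -/
noncomputable def minDist {n : ℕ} (f : Eucl n → Eucl n) (x : Eucl n) (r : ℝ) : ℝ≥0∞ :=
  ⨅ ξ ∈ sphere x r, edist (f ξ) (f x)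

/-- The linear dilatation `k_f(x)`, the upper limit of `M_f(x, δ) / m_f(x, δ)` as `δ` tends to `0+`. -/
noncomputable def linDil {n : ℕ} (f : Eucl n → Eucl n) (x : Eucl n) : ℝ≥0∞ :=
  limsup (fun δ : ℝ => maxDist f x δ / minDist f x δ) (𝓝[>] (0 : ℝ))

/-- The class `Q_k` of injective `k`-quasiconformal maps of `ℝⁿ` into itself: continuous, injective,
with bounded linear dilatation that is at most `k` almost everywhere. -/
structure IsInjQC {n : ℕ} (k : ℝ) (f : Eucl n → Eucl n) : Prop where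
  continuous : Continuous f
  injective : Function.Injective f
  bounded : ∃ H : ℝ≥0∞, H < ⊤ ∧ ∀ x, linDil f x ≤ H
  ae_le : ∀ᵐ x : Eucl n, linDil f x ≤ ENNReal.ofReal k

/-- The distortion coefficient `ε(n, k)`. -/
noncomputable def distortion (n : ℕ) (k : ℝ) : ℝ≥0∞ :=
  ⨆ (f : Eucl n → Eucl n) (_ : IsInjQC k f) (r : ℝ) (_ : 0 < r), maxDist f 0 r / minDist f 0 r

open Pool.Agent.Helper746.Qc in
theorem rnd_of_linDil {n : ℕ} {f : Eucl n → Eucl n} {x : Eucl n} {K : ℝ} (hK : 0 ≤ K)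
    (h : linDil f x < ENNReal.ofReal K) : Rnd K f x := by
  have h1 := Filter.eventually_lt_of_limsup_lt h
  rw [eventually_nhdsWithin_iff, Metric.eventually_nhds_iff] at h1
  obtain ⟨δ, hδ, h2⟩ := h1
  refine ⟨δ, hδ, ?_⟩
  intro ξ ξ' he hp hl
  have h3 := h2 (y := dist ξ x) (by simpa [Real.dist_eq, abs_of_pos hp] using hl) hp
  by_contra hcon
  push Not at hcon
  have h4 : maxDist f x (dist ξ x) ≤ ENNReal.ofReal K * minDist f x (dist ξ x) := by
    rcases eq_or_ne (minDist f x (dist ξ x)) 0 with h0 | h0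
    · rw [h0] at h3
      rcases eq_or_ne (maxDist f x (dist ξ x)) 0 with h5 | h5
      · rw [h5]; exact bot_le
      · rw [ENNReal.div_zero h5] at h3
        exact absurd h3 (not_lt.mpr le_top)
    · have h6 : minDist f x (dist ξ x) ≠ ⊤ := by
        have : minDist f x (dist ξ x) ≤ edist (f ξ) (f x) :=
          iInf₂_le (f := fun ζ (_ : ζ ∈ sphere x (dist ξ x)) => edist (f ζ) (f x)) ξ (mem_sphere.mpr rfl)
        exact ne_top_of_le_ne_top (edist_ne_top _ _) this
      exact (ENNReal.div_le_iff h0 h6).mp h3.le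
  have h5 : edist (f ξ) (f x) ≤ maxDist f x (dist ξ x) :=
    le_iSup₂_of_le (f := fun ζ (_ : ζ ∈ sphere x (dist ξ x)) => edist (f ζ) (f x)) ξ (mem_sphere.mpr rfl) le_rfl
  have h6 : minDist f x (dist ξ x) ≤ edist (f ξ') (f x) :=
    iInf₂_le (f := fun ζ (_ : ζ ∈ sphere x (dist ξ x)) => edist (f ζ) (f x)) ξ' (mem_sphere.mpr he.symm)
  have h7 : edist (f ξ) (f x) ≤ ENNReal.ofReal K * edist (f ξ') (f x) :=
    h5.trans (h4.trans (mul_le_mul_right h6 _))
  rw [edist_dist, edist_dist, ← ENNReal.ofReal_mul hK,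
    ENNReal.ofReal_le_ofReal_iff (mul_nonneg hK dist_nonneg)] at h7
  linarith

theorem isOpenMap_of_injective {n : ℕ} {f : Eucl n → Eucl n} (hc : Continuous f)
    (hi : Function.Injective f) : IsOpenMap f := by
  rw [isOpenMap_iff_nhds_le]
  intro x U hU
  rw [mem_map] at hU
  obtain ⟨r, hr, hrU⟩ := Metric.nhds_basis_closedBall.mem_iff.mp hU
  have h := Pool.Agent.Helper514.IoD.image_mem_nhds f x r hr hc.continuousOn hi.injOn
  exact Filter.mem_of_superset h (by rintro _ ⟨y, hy, rfl⟩; exact hrU hy)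

open Pool.Agent.Helper746.Qc in
theorem qc_scale {n : ℕ} {H K : ℝ} {f : Eucl n → Eucl n} (hf : QC H K f) {r : ℝ} (hr : 0 < r) :
    QC H K (fun x => f (r • x) - f 0) := by
  have hrnd : ∀ (L : ℝ) (x : Eucl n), Rnd L f (r • x) → Rnd L (fun x => f (r • x) - f 0) x := by
    rintro L x ⟨δ, hδ, h⟩
    refine ⟨δ / r, div_pos hδ hr, ?_⟩
    intro ξ ξ' he hp hl
    have h1 : ∀ ζ : Eucl n, dist (r • ζ) (r • x) = r * dist ζ x := by
      intro ζ
      rw [dist_smul₀, Real.norm_eq_abs, abs_of_pos hr]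
    have := h (r • ξ) (r • ξ') (by rw [h1, h1, he]) (by rw [h1]; positivity)
      (by rw [h1]; rw [lt_div_iff₀ hr] at hl; linarith [mul_comm r (dist ξ x)])
    simpa using this
  refine ⟨?_, ?_, ?_, fun x => hrnd H x (hf.rnd _), ?_⟩
  · exact (hf.cont.comp (continuous_const_smul r)).sub continuous_const
  · intro a b hab
    have : f (r • a) = f (r • b) := by simpa using hab
    exact smul_right_injective _ hr.ne' (hf.inj this)
  · have h1 : IsOpenMap (fun x : Eucl n => r • x) := isOpenMap_smul₀ hr.ne'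
    have h2 : IsOpenMap (fun y : Eucl n => y - f 0) := (Homeomorph.subRight (f 0)).isOpenMap
    exact h2.comp (hf.opn.comp h1)
  · have h1 : ∀ᵐ x : Eucl n, Rnd K f (r • x) := by
      have hq : Measure.QuasiMeasurePreserving (fun x : Eucl n => r • x) volume volume := by
        refine ⟨measurable_const_smul r, ?_⟩
        rw [Measure.map_addHaar_smul volume hr.ne']
        exact Measure.smul_absolutelyContinuous
      exact hq.ae hf.rndae
    filter_upwards [h1] with x hx
    exact hrnd K x hx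

/-- The exponent of the bound. -/
noncomputable def expo (K : ℝ) : ℝ :=
  Real.log 10 + 2 * (2 * (2 * K * (24 / (3 * Real.exp (-(64 * K ^ 2 * Real.log 8 + 1)) / (8 * K))
    + 6)) ^ 2) + 64 * K ^ 2 * (1 + Real.log 234)

open Pool.Agent.Helper746.Qc in
/-- The library theorem `Pool.Agent.Helper746.Qc.main_real` with the explicit constant. -/
theorem main_explicit {K : ℝ} (hK : 1 ≤ K) : ∀ n : ℕ, 2 ≤ n → ∀ H : ℝ, 1 ≤ H →
    ∀ f : Eu n → Eu n, QC H K f → f 0 = 0 → ∀ a b : Eu n, ‖a‖ = 1 → ‖b‖ = 1 →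
      ‖f a‖ ≤ max 100 (Real.exp (expo K)) * ‖f b‖ := by
  have hK0 : 0 < K := by linarith
  have hKsq : 1 ≤ K ^ 2 := one_le_pow₀ hK
  have hl8 : 0 < Real.log 8 := Real.log_pos (by norm_num)
  set B : ℝ := 64 * K ^ 2 * Real.log 8 + 1 with hB
  have hB0 : 0 < B := by positivity
  have hB8 : Real.log 8 ≤ B := by
    have : 1 * Real.log 8 ≤ 64 * K ^ 2 * Real.log 8 :=
      mul_le_mul_of_nonneg_right (by linarith) hl8.le
    linarith
  set η : ℝ := Real.exp (-B) with hη
  have hη0 : 0 < η := Real.exp_pos _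
  have hη8 : η ≤ 1 / 8 := by
    calc η ≤ Real.exp (-Real.log 8) := Real.exp_le_exp.2 (by linarith)
      _ = 1 / 8 := by rw [Real.exp_neg, Real.exp_log (by norm_num)]; norm_num
  have hη1 : η ≤ 1 := by linarith
  have hηlog : Real.log (1 / η) = B := by
    rw [one_div, Real.log_inv, hη, Real.log_exp, neg_neg]
  have hηlog' : Real.log η = -B := by rw [hη, Real.log_exp]
  set c : ℝ := 3 * η / (8 * K) with hc
  have hc0 : 0 < c := by positivity
  have hc1 : c ≤ 1 := by
    rw [hc, div_le_one (by positivity)]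
    linarith
  set A1 : ℝ := 2 * (2 * K * (24 / c + 6)) ^ 2 with hA1
  have hA10 : 0 ≤ A1 := by positivity
  set E : ℝ := Real.log 10 + 2 * A1 + 64 * K ^ 2 * (1 + Real.log 234) with hE
  have hEE : expo K = E := rfl
  rw [hEE]
  intro n hn H hH f hf hf0 a b ha hb
  have hn1 : 1 ≤ n := by omega
  set C : ℝ := max 100 (Real.exp E) with hC
  have hC100 : 100 ≤ C := le_max_left _ _
  have hCE : Real.exp E ≤ C := le_max_right _ _
  have hC0 : 0 ≤ C := by linarith
  set M : ℝ := ‖f a‖ with hM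
  set m : ℝ := mm f 0 1 with hm
  have hm0 : 0 < m := mm_pos hn1 hf.cont hf.inj 0 one_pos
  have hmb : m ≤ ‖f b‖ := by
    have h1 := mm_le_of_le hn1 hf.cont hf.inj hf.opn 0 b one_pos (by rw [dist_zero_right, hb])
    rw [hf0, dist_zero_right] at h1
    exact h1
  have hCm : C * m ≤ C * ‖f b‖ := mul_le_mul_of_nonneg_left hmb hC0
  refine le_trans ?_ hCm
  by_cases hcase : M ≤ 100 * m
  · exact hcase.trans (mul_le_mul_of_nonneg_right hC100 hm0.le)
  push Not at hcase
  have hM0 : 0 < M := by linarith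
  obtain ⟨J1, x1, r1, V1, hx1, hfx1, hr10, hr1, hV1m, hV1s, hV1f, hV1v⟩ :=
    chain hn hH hK hf hη0 hη8 (by rw [hηlog]; linarith) 0 one_pos
  obtain ⟨x', hx'a, hfx', hmx'⟩ := outer_start hn hf.cont hf.inj hf.opn hf0 a ha hM.symm
  obtain ⟨J2, x2, r2, V2, hx2, hfx2, hr20, hr2, hV2m, hV2s, hV2f, hV2v⟩ :=
    chain hn hH hK hf hη0 hη8 (by rw [hηlog]; linarith) x' (by norm_num : (0 : ℝ) < 1 / 26)
  rw [← hm] at hfx1 hr1
  rw [hf0, dist_zero_right] at hfx1
  rw [dist_zero_right] at hx1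
  have hm'0 : 0 < mm f x' (1 / 26) := mm_pos hn1 hf.cont hf.inj x' (by norm_num)
  have hηJ1 : η ^ J1 ≤ 1 := pow_le_one₀ hη0.le hη1
  have hηJ2 : η ^ J2 ≤ 1 := pow_le_one₀ hη0.le hη1
  have hηJ10 : 0 < η ^ J1 := by positivity
  have hηJ20 : 0 < η ^ J2 := by positivity
  have hr1m : r1 ≤ m := hr1.trans (by nlinarith)
  have hr2M : r2 ≤ η ^ J2 * (M / 4) := hr2.trans (mul_le_mul_of_nonneg_left hmx' hηJ20.le)
  have hr2M' : r2 ≤ M / 4 := hr2M.trans (by nlinarith)
  have hfx2M : 5 * M / 7 ≤ ‖f x2‖ := by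
    have h1 : ‖f x'‖ ≤ ‖f x2‖ + dist (f x2) (f x') := by
      rw [dist_comm, dist_eq_norm]
      have : f x' = f x2 + (f x' - f x2) := by abel
      calc ‖f x'‖ = ‖f x2 + (f x' - f x2)‖ := by rw [← this]
        _ ≤ _ := norm_add_le _ _
    rw [hfx'] at h1
    linarith
  -- scales
  set d1 : ℝ := 1 / 8 ^ J1 with hd1
  set d2 : ℝ := 1 / 26 / 8 ^ J2 with hd2
  have h8J1 : (1 : ℝ) ≤ 8 ^ J1 := one_le_pow₀ (by norm_num)
  have h8J2 : (1 : ℝ) ≤ 8 ^ J2 := one_le_pow₀ (by norm_num)
  have hd10 : 0 < d1 := by positivity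
  have hd20 : 0 < d2 := by positivity
  have hd13 : d1 ≤ 3 := by
    have : d1 ≤ 1 := by
      rw [hd1, div_le_one (by positivity)]; exact h8J1
    linarith
  have hd23 : d2 ≤ 3 := by
    have : d2 ≤ 1 / 26 := div_le_self (by norm_num) h8J2
    linarith
  have hdist : dist x1 x2 ≤ 3 := by
    have t1 : dist x1 x2 ≤ dist x1 0 + dist 0 a + dist a x' + dist x' x2 :=
      (dist_triangle4 x1 0 a x2).trans (by linarith [dist_triangle a x' x2])
    have t2 : dist x1 0 = ‖x1‖ := dist_zero_right _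
    have t3 : dist (0 : Eu n) a = 1 := by rw [dist_zero_left, ha]
    rw [dist_comm a x', dist_comm x' x2] at t1
    linarith
  have hlog1 : Real.log (3 / d1) = Real.log 3 + J1 * Real.log 8 := by
    rw [hd1]
    have : (3 : ℝ) / (1 / 8 ^ J1) = 3 * 8 ^ J1 := by field_simp
    rw [this, Real.log_mul (by norm_num) (by positivity), Real.log_pow]
  have hlog2 : Real.log (3 / d2) = Real.log 78 + J2 * Real.log 8 := by
    rw [hd2]
    have : (3 : ℝ) / (1 / 26 / 8 ^ J2) = 78 * 8 ^ J2 := by field_simp; norm_num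
    rw [this, Real.log_mul (by norm_num) (by positivity), Real.log_pow]
  have hlog234 : Real.log 3 + Real.log 78 = Real.log 234 := by
    rw [← Real.log_mul (by norm_num) (by norm_num)]; norm_num
  have hl3 : 0 ≤ Real.log 3 := Real.log_nonneg (by norm_num)
  have hl78 : 0 ≤ Real.log 78 := Real.log_nonneg (by norm_num)
  -- norm facts
  have hV2far : ∀ x ∈ V2, M / 5 ≤ dist (f x) (f x1) := by
    intro x hx
    have h1 := hV2f x hx
    have h2 : ‖f x2‖ ≤ dist (f x2) (f x) + dist (f x) (f x1) + ‖f x1‖ := by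
      have := dist_triangle4 (f x2) (f x) (f x1) 0
      rwa [dist_zero_right, dist_zero_right] at this
    rw [dist_comm (f x2) (f x)] at h2
    linarith
  have hV1far : ∀ x ∈ V1, M / 2 ≤ dist (f x) (f x2) := by
    intro x hx
    have h1 := hV1f x hx
    have h2 : ‖f x2‖ ≤ dist (f x2) (f x) + dist (f x) (f x1) + ‖f x1‖ := by
      have := dist_triangle4 (f x2) (f x) (f x1) 0
      rwa [dist_zero_right, dist_zero_right] at this
    rw [dist_comm (f x2) (f x)] at h2
    linarith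
  have hA := ring_ineq hn hH hK hf (f x1) (a := 2 * r1) (b := M / 5) (by positivity)
    (by linarith) (x₁ := x1) (x₂ := x2) (d₁ := d1) (d₂ := d2) (R := 3) (c := c) hd10 hd20
    hd13 hd23 hdist hc0 hc1 hV1m hV2m hV1s hV2s hV1v hV2v hV1f hV2far
  have hBB : Real.log (M / 2 / (2 * r2)) ≤ A1 +
      32 * K ^ 2 * (1 + Real.log (3 / d2) + Real.log (3 / d1)) := by
    by_cases h2 : 2 * r2 < M / 2
    · exact ring_ineq hn hH hK hf (f x2) (a := 2 * r2) (b := M / 2) (by positivity) h2
        (x₁ := x2) (x₂ := x1) (d₁ := d2) (d₂ := d1) (R := 3) (c := c) hd20 hd10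
        hd23 hd13 (by rw [dist_comm]; exact hdist) hc0 hc1 hV2m hV1m hV2s hV1s hV2v hV1v
        hV2f hV1far
    · push Not at h2
      have h3 : Real.log (M / 2 / (2 * r2)) ≤ 0 := by
        refine Real.log_nonpos (by positivity) ?_
        rw [div_le_one (by positivity)]
        exact h2
      refine h3.trans ?_
      rw [hlog1, hlog2]
      positivity
  rw [← hA1, hlog1, hlog2] at hA
  rw [hlog1, hlog2] at hBB
  -- lower bounds
  have hLA : Real.log (M / m) - Real.log 10 + J1 * B ≤ Real.log (M / 5 / (2 * r1)) := by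
    have h1 : M / 5 / (2 * (η ^ J1 * m)) ≤ M / 5 / (2 * r1) := by
      refine div_le_div_of_nonneg_left (by positivity) (by positivity) (by linarith)
    have h2 := Real.log_le_log (by positivity) h1
    have h3 : Real.log (M / 5 / (2 * (η ^ J1 * m))) = Real.log (M / m) - Real.log 10 + J1 * B := by
      have h4 : M / 5 / (2 * (η ^ J1 * m)) = M / m / 10 / η ^ J1 := by
        field_simp; norm_num
      rw [h4, Real.log_div (by positivity) (by positivity),
        Real.log_div (by positivity) (by norm_num), Real.log_pow, hηlog']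
      ring
    linarith
  have hLB : J2 * B ≤ Real.log (M / 2 / (2 * r2)) := by
    have h1 : M / 2 / (2 * (η ^ J2 * (M / 4))) ≤ M / 2 / (2 * r2) := by
      refine div_le_div_of_nonneg_left (by positivity) (by positivity) (by linarith)
    have h2 := Real.log_le_log (by positivity) h1
    have h3 : Real.log (M / 2 / (2 * (η ^ J2 * (M / 4)))) = J2 * B := by
      have h4 : M / 2 / (2 * (η ^ J2 * (M / 4))) = (η ^ J2)⁻¹ := by
        field_simp; norm_num
      rw [h4, Real.log_inv, Real.log_pow, hηlog']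
      ring
    linarith
  have hJ1 : (0 : ℝ) ≤ J1 := Nat.cast_nonneg _
  have hJ2 : (0 : ℝ) ≤ J2 := Nat.cast_nonneg _
  have hfin : Real.log (M / m) ≤ E := by
    have e1 : (J1 : ℝ) * B = J1 * (64 * K ^ 2 * Real.log 8) + J1 := by rw [hB]; ring
    have e2 : (J2 : ℝ) * B = J2 * (64 * K ^ 2 * Real.log 8) + J2 := by rw [hB]; ring
    rw [hE, ← hlog234]
    nlinarith
  have h9 : M / m ≤ Real.exp E := by
    rw [← Real.log_le_iff_le_exp (by positivity)]
    exact hfin
  rw [div_le_iff₀ hm0] at h9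
  exact h9.trans (mul_le_mul_of_nonneg_right hCE hm0.le)

/-- the numerical estimate -/
theorem expo_le {k : ℝ} (hk : 1 ≤ k) : max 100 (Real.exp (expo (101 / 100 * k))) ≤
    Real.exp (Real.exp (300 * k ^ 2)) := by
  have hk2 : 1 ≤ k ^ 2 := one_le_pow₀ hk
  set K : ℝ := 101 / 100 * k with hKdef
  have hK : 1 ≤ K := by rw [hKdef]; linarith
  have hK0 : 0 < K := by linarith
  have hK2 : 1 ≤ K ^ 2 := one_le_pow₀ hK
  have hK4 : 1 ≤ K ^ 4 := one_le_pow₀ hK
  have hKk : K ^ 2 = 10201 / 10000 * k ^ 2 := by rw [hKdef]; ring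
  have hl2 : Real.log 2 < 0.6931471808 := Real.log_two_lt_d9
  have hl8 : Real.log 8 ≤ 2.08 := by
    have : Real.log 8 = 3 * Real.log 2 := by
      rw [show (8 : ℝ) = 2 ^ 3 by norm_num, Real.log_pow]; norm_num
    rw [this]; linarith
  have hl80 : 0 ≤ Real.log 8 := Real.log_nonneg (by norm_num)
  have hl10 : Real.log 10 ≤ 2.8 := by
    have : Real.log 10 ≤ Real.log 16 := Real.log_le_log (by norm_num) (by norm_num)
    have h2 : Real.log 16 = 4 * Real.log 2 := by
      rw [show (16 : ℝ) = 2 ^ 4 by norm_num, Real.log_pow]; norm_num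
    linarith
  have hl234 : Real.log 234 ≤ 5.6 := by
    have : Real.log 234 ≤ Real.log 256 := Real.log_le_log (by norm_num) (by norm_num)
    have h2 : Real.log 256 = 8 * Real.log 2 := by
      rw [show (256 : ℝ) = 2 ^ 8 by norm_num, Real.log_pow]; norm_num
    linarith
  set B : ℝ := 64 * K ^ 2 * Real.log 8 + 1 with hB
  have hB0 : 0 ≤ B := by positivity
  set X : ℝ := Real.exp B with hX
  have hX1 : 1 ≤ X := Real.one_le_exp hB0
  have hX0 : 0 < X := by linarith
  have h24 : 24 / (3 * Real.exp (-B) / (8 * K)) = 64 * K * X := by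
    rw [Real.exp_neg, ← hX]
    field_simp
    norm_num
  have hE : expo K ≤ 80000 * K ^ 4 * X ^ 2 := by
    have h0 : expo K = Real.log 10 + 2 * (2 * (2 * K * (64 * K * X + 6)) ^ 2) +
        64 * K ^ 2 * (1 + Real.log 234) := by
      rw [← h24]
      rfl
    have hKX : 1 ≤ K * X := one_le_mul_of_one_le_of_one_le hK hX1
    have h1 : 64 * K * X + 6 ≤ 70 * (K * X) := by nlinarith
    have h2 : 2 * K * (64 * K * X + 6) ≤ 140 * (K ^ 2 * X) := by nlinarith
    have h3 : 0 ≤ 2 * K * (64 * K * X + 6) := by positivity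
    have h4 : (2 * K * (64 * K * X + 6)) ^ 2 ≤ (140 * (K ^ 2 * X)) ^ 2 := pow_le_pow_left₀ h3 h2 2
    have h5 : K ^ 2 ≤ K ^ 4 := pow_le_pow_right₀ hK (by norm_num)
    have hX2 : 1 ≤ X ^ 2 := one_le_pow₀ hX1
    have h6 : K ^ 4 ≤ K ^ 4 * X ^ 2 := le_mul_of_one_le_right (by positivity) hX2
    have h7 : 64 * K ^ 2 * (1 + Real.log 234) ≤ 64 * K ^ 2 * 6.6 :=
      mul_le_mul_of_nonneg_left (by linarith) (by positivity)
    rw [h0]
    have h8 : (140 * (K ^ 2 * X)) ^ 2 = 19600 * (K ^ 4 * X ^ 2) := by ring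
    rw [h8] at h4
    nlinarith
  have hXe : X ^ 2 = Real.exp (2 * B) := by
    rw [hX, ← Real.exp_nat_mul]
    norm_num
  have hBk : 2 * B ≤ 272 * k ^ 2 + 2 := by
    have h1 : 64 * K ^ 2 * Real.log 8 ≤ 64 * K ^ 2 * 2.08 :=
      mul_le_mul_of_nonneg_left hl8 (by positivity)
    rw [hB]
    rw [hKk] at h1 ⊢
    nlinarith
  have hk4 : K ^ 4 ≤ Real.exp (2 * k ^ 2) := by
    have h1 : K ^ 2 ≤ Real.exp (k ^ 2) := by
      have h0 := Real.add_one_le_exp (k ^ 2 - 1)
      have e1 : (2 : ℝ) ≤ Real.exp 1 := by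
        have := Real.add_one_le_exp (1 : ℝ)
        linarith
      have h00 : Real.exp (k ^ 2) = Real.exp (k ^ 2 - 1) * Real.exp 1 := by
        rw [← Real.exp_add]
        congr 1
        ring
      have h01 : k ^ 2 * 2 ≤ Real.exp (k ^ 2 - 1) * Real.exp 1 :=
        mul_le_mul (by linarith) e1 (by norm_num) (Real.exp_pos _).le
      rw [hKk, h00]
      linarith
    calc K ^ 4 = (K ^ 2) ^ 2 := by ring
      _ ≤ (Real.exp (k ^ 2)) ^ 2 := pow_le_pow_left₀ (by positivity) h1 2
      _ = Real.exp (2 * k ^ 2) := by rw [← Real.exp_nat_mul]; norm_num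
  have h8 : (80000 : ℝ) ≤ Real.exp 12 := by
    have h1 : (2.7182818283 : ℝ) < Real.exp 1 := Real.exp_one_gt_d9
    have h2 : Real.exp 12 = (Real.exp 1) ^ 12 := by
      rw [← Real.exp_nat_mul]; norm_num
    rw [h2]
    calc (80000 : ℝ) ≤ 2.7182818283 ^ 12 := by norm_num
      _ ≤ _ := pow_le_pow_left₀ (by norm_num) h1.le 12
  have hE2 : expo K ≤ Real.exp (300 * k ^ 2) := by
    calc expo K ≤ 80000 * K ^ 4 * X ^ 2 := hE
      _ ≤ Real.exp 12 * Real.exp (2 * k ^ 2) * Real.exp (272 * k ^ 2 + 2) := by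
          rw [hXe]
          gcongr
      _ = Real.exp (12 + 2 * k ^ 2 + (272 * k ^ 2 + 2)) := by
          rw [← Real.exp_add, ← Real.exp_add]
      _ ≤ Real.exp (300 * k ^ 2) := Real.exp_le_exp.2 (by linarith)
  refine max_le ?_ (Real.exp_le_exp.2 hE2)
  have h9 : (300 : ℝ) ≤ Real.exp (300 * k ^ 2) := by
    have := Real.add_one_le_exp (300 * k ^ 2)
    linarith
  have h10 := Real.add_one_le_exp (Real.exp (300 * k ^ 2))
  linarith

/-- **An explicit dimension-free bound for the distortion coefficient**: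
`E(k) = sup_{n ≥ 2} ε(n, k) ≤ exp (exp (300 k²))` for every `k ≥ 1`. -/
theorem result : ∀ k : ℝ, 1 ≤ k →
    (⨆ (n : ℕ) (_ : 2 ≤ n), distortion n k) ≤ ENNReal.ofReal (Real.exp (Real.exp (300 * k ^ 2))) := by
  intro k hk
  set C : ℝ := max 100 (Real.exp (expo (101 / 100 * k))) with hCdef
  have hC := main_explicit (K := 101 / 100 * k) (by linarith)
  refine le_trans ?_ (ENNReal.ofReal_le_ofReal (expo_le hk))
  have hCC : max C 1 = C := max_eq_left (le_trans (by norm_num) (le_max_left _ _))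
  rw [← hCdef, ← hCC]
  refine iSup₂_le fun n hn => iSup₂_le fun f hf => iSup₂_le fun r hr => ?_
  obtain ⟨H₀, hH₀, hH⟩ := hf.bounded
  set H : ℝ := H₀.toReal + 1 with hHdef
  have hH1 : 1 ≤ H := by simp [hHdef]
  have hQC : Pool.Agent.Helper746.Qc.QC H (101 / 100 * k) f := by
    refine ⟨hf.continuous, hf.injective, isOpenMap_of_injective hf.continuous hf.injective, ?_, ?_⟩
    · intro x
      refine rnd_of_linDil (by linarith) (lt_of_le_of_lt (hH x) ?_)
      rw [← ENNReal.ofReal_toReal hH₀.ne]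
      exact (ENNReal.ofReal_lt_ofReal_iff (by linarith)).mpr (by simp [hHdef])
    · filter_upwards [hf.ae_le] with x hx
      refine rnd_of_linDil (by linarith) (lt_of_le_of_lt hx ?_)
      exact (ENNReal.ofReal_lt_ofReal_iff (by linarith)).mpr (by linarith)
  have hS := qc_scale hQC hr
  have key := hC n hn H hH1 _ hS (by simp)
  have hC1 : (1 : ℝ) ≤ max C 1 := le_max_right _ _
  have hle : maxDist f 0 r ≤ ENNReal.ofReal (max C 1) * minDist f 0 r := by
    refine iSup₂_le fun ξ hξ => ?_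
    have hc0 : ENNReal.ofReal (max C 1) ≠ 0 := by
      rw [Ne, ENNReal.ofReal_eq_zero]; linarith
    rw [mul_comm, ← ENNReal.div_le_iff_le_mul (Or.inl hc0) (Or.inl ENNReal.ofReal_ne_top)]
    refine le_iInf₂ fun ξ' hξ' => ?_
    rw [ENNReal.div_le_iff_le_mul (Or.inl hc0) (Or.inl ENNReal.ofReal_ne_top), mul_comm]
    have hnr : ∀ ζ : Eucl n, ζ ∈ sphere (0 : Eucl n) r → ‖r⁻¹ • ζ‖ = 1 := by
      intro ζ hζ
      rw [norm_smul, norm_inv, Real.norm_eq_abs, abs_of_pos hr, mem_sphere_zero_iff_norm.mp hζ]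
      exact inv_mul_cancel₀ hr.ne'
    have h1 := key (r⁻¹ • ξ) (r⁻¹ • ξ') (hnr ξ hξ) (hnr ξ' hξ')
    simp only [smul_inv_smul₀ hr.ne'] at h1
    rw [edist_dist, edist_dist, ← ENNReal.ofReal_mul (by linarith), dist_eq_norm, dist_eq_norm]
    refine ENNReal.ofReal_le_ofReal (h1.trans ?_)
    exact mul_le_mul_of_nonneg_right (le_max_left _ _) (norm_nonneg _)
  exact ENNReal.div_le_of_le_mul hle

end Pool.Agent.Results.MP_591455_an.ExplicitBound
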